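import Pool.Agent.X161.MC.Exist

/-!
# MP_2ab2dc_nt: `f(50) = 8000` is non-MC
-/

set_option autoImplicit false

namespace Pool.Agent.Results.MP_2ab2dc_nt.NonMCFifty

open Pool.Agent.X161.MC

/-- The lattice points enclosed by the circle with centre `c` and radius `r`. -/
def enclosed (c : ℝ × ℝ) (r : ℝ) : Set (ℤ × ℤ) :=
  {p | ((p.1 : ℝ) - c.1) ^ 2 + ((p.2 : ℝ) - c.2) ^ 2 < r ^ 2}

/-- The radii of the `n`-enclosing circles. -/
def radii (n : ℕ) : Set ℝ := {r | 0 < r ∧ ∃ c : ℝ × ℝ, (enclosed c r).encard = n}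

/-- `n` is MC: there is a largest `n`-enclosing circle. -/
def IsMC (n : ℕ) : Prop := ∃ r, IsGreatest (radii n) r

/-- `n` is a strong MC number. -/
def IsStrong (n : ℕ) : Prop := IsMC n ∧ ¬ IsMC (n + 1)

/-- The number of the lattice points enclosed by the circle `𝒮_k`, with centre `(1/2, 1/2)` and radius
`√(k² + k + 1/2)`. -/
noncomputable def f (k : ℕ) : ℕ := (enclosed (1 / 2, 1 / 2) (√((k : ℝ) ^ 2 + k + 1 / 2))).ncard

/-- The set `K` of positive integers has positive density. -/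
def HasPosDensity (K : Set ℕ) : Prop :=
  ∃ δ : ℝ, 0 < δ ∧ Filter.Tendsto (fun N : ℕ => ((K ∩ Set.Icc 1 N).ncard : ℝ) / N) Filter.atTop (nhds δ)

lemma encard_eq (c : ℝ × ℝ) (r : ℝ) : (enclosed c r).encard = cnt c.1 c.2 (r ^ 2) :=
  ((enc_finite c.1 c.2 (r ^ 2)).cast_ncard_eq).symm

lemma f_eq : f 50 = 8000 := by
  have h := cnt_exact (M := 2) (X := 1) (Y := 1) (S := 10202) 51 (by norm_num) (by norm_num)
    (by norm_num) (by norm_num)
  have h1 : f 50 = cnt (1 / 2) (1 / 2) (√(((50 : ℕ) : ℝ) ^ 2 + (50 : ℕ) + 1 / 2) ^ 2) := rfl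
  rw [h1, Real.sq_sqrt (by positivity)]
  norm_num at h ⊢
  rw [h]
  decide +kernel

lemma cert : chk 512 668794880 51 8001 (fun a b h => near 256 0 4 a b h || near 0 256 4 a b h)
    12 0 0 256 = true := by decide +kernel

lemma core_val : 7998 ≤ boxCount 512 668794880 51 252 256 0 4 := by decide +kernel

lemma S_eq : (((668794880 : ℕ) : ℝ) / ((512 : ℕ) : ℝ) ^ 2) = 10205 / 4 := by norm_num

lemma lower_near {x y : ℝ} (h1 : 252 ≤ x * 512) (hx1 : x ≤ 1 / 2) (hy0 : 0 ≤ y) (h4 : y * 512 ≤ 4)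
    (hne : ¬ (x = 1 / 2 ∧ y = 0)) : 8001 ≤ cnt x y (10205 / 4) := by
  rw [← S_eq]
  have hpos : 0 < (1 / 2 - x) + y := by
    rcases lt_or_eq_of_le hx1 with h5 | h5
    · linarith
    · rcases lt_or_eq_of_le hy0 with h6 | h6
      · linarith
      · exact absurd ⟨h5, h6.symm⟩ hne
  have hq1 : (1 / 2 - x) ^ 2 ≤ (1 / 2 - x) := by nlinarith
  have hq2 : y ^ 2 ≤ y := by nlinarith
  have := near_count (M := 512) (S := 668794880) (a := 252) (a' := 256) (b := 0) (b' := 4)
    (by norm_num) (by norm_num) (by norm_num) (x₀ := 1 / 2) (y₀ := 0) (x := x) (y := y)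
    (by norm_num) (by norm_num) (by norm_num) (by norm_num) (by norm_num) (by norm_num)
    (by norm_num) (by norm_num) (by norm_num; linarith) (by norm_num; linarith)
    (by norm_num; linarith) (by norm_num; linarith) (by linarith) hy0 (by linarith) (by linarith) 51
    {(-29, 41), (-26, 43), (-18, 47)}
    (by
      intro p hp
      rw [S_eq]
      simp only [Finset.mem_insert, Finset.mem_singleton] at hp
      rcases hp with rfl | rfl | rfl <;> norm_num [sd])
    (by
      intro p hp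
      rw [S_eq]
      simp only [Finset.mem_insert, Finset.mem_singleton] at hp
      rcases hp with rfl | rfl | rfl <;> simp only [sd] <;> push_cast <;> nlinarith)
  have c := core_val
  have hcard : ({(-29, 41), (-26, 43), (-18, 47)} : Finset (ℤ × ℤ)).card = 3 := by decide
  rw [hcard] at this
  omega

lemma lower {x y : ℝ} (hx0 : 0 ≤ x) (hx1 : x ≤ 1 / 2) (hy0 : 0 ≤ y) (hy1 : y ≤ 1 / 2)
    (hne : ¬ (x = 1 / 2 ∧ y = 0)) (hne' : ¬ (x = 0 ∧ y = 1 / 2)) : 8001 ≤ cnt x y (10205 / 4) := by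
  rw [← S_eq]
  rcases chk_sound (by norm_num) 12 0 0 256 (by norm_num) (by norm_num) cert x y
    (by push_cast; linarith) (by push_cast; linarith) (by push_cast; linarith)
    (by push_cast; linarith) with h | h
  · exact h
  obtain ⟨a, b, h, hn, h1, h2, h3, h4⟩ := h
  rw [Bool.or_eq_true] at hn
  rw [S_eq]
  rcases hn with hn | hn
  · obtain ⟨e1, -, -, e4⟩ := near_spec hn h1 h2 h3 h4
    norm_num at e1 e4
    exact lower_near (by linarith) hx1 hy0 (by linarith) hne
  · obtain ⟨-, e2, e3, -⟩ := near_spec hn h1 h2 h3 h4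
    norm_num at e2 e3
    rw [cnt_swap]
    exact lower_near (by linarith) hy1 hx0 (by linarith) (fun h => hne' ⟨h.2, h.1⟩)

lemma centre_count : cnt (1 / 2) 0 (10205 / 4) = 7998 := by
  have h := cnt_exact (M := 2) (X := 1) (Y := 0) (S := 10205) 51 (by norm_num) (by norm_num)
    (by norm_num) (by norm_num)
  norm_num at h
  rw [h]
  decide +kernel

lemma never_centre {s : ℝ} (hs : 10205 / 4 ≤ s) : cnt (1 / 2) 0 s ≠ 8000 := by
  rcases lt_or_eq_of_le hs with h | h
  · have := cnt_gt h {(-29, 41), (-26, 43), (-18, 47)}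
      (x := 1 / 2) (y := 0) (by
        intro p hp
        simp only [Finset.mem_insert, Finset.mem_singleton] at hp
        rcases hp with rfl | rfl | rfl <;> norm_num [sd])
    rw [centre_count] at this
    have hcard : ({(-29, 41), (-26, 43), (-18, 47)} : Finset (ℤ × ℤ)).card = 3 := by decide
    omega
  · rw [← h, centre_count]
    norm_num

lemma never {x y s : ℝ} (hs : 10205 / 4 ≤ s) : cnt x y s ≠ 8000 := by
  obtain ⟨x', y', h1, h2, h3, h4, h5⟩ := exists_red x y
  rw [h5]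
  by_cases hc : x' = 1 / 2 ∧ y' = 0
  · obtain ⟨rfl, rfl⟩ := hc
    exact never_centre hs
  by_cases hc' : x' = 0 ∧ y' = 1 / 2
  · obtain ⟨rfl, rfl⟩ := hc'
    rw [cnt_swap]
    exact never_centre hs
  have := (lower h1 h2 h3 h4 hc hc').trans (cnt_mono hs)
  omega

lemma exist {t : ℝ} (ht : t < 10205 / 4) : ∃ x y s : ℝ, t < s ∧ cnt x y s = 8000 := by
  refine exist_near (q := 2) (N := 10205) (X := 1) (Y := 0) (V := 1) (W := 0) (A := 100)
    (m := 7998) (k := 2) (by norm_num) ?_ ?_ (by norm_num; exact ht)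
  · have := centre_count
    norm_num at this ⊢
    exact this
  · rw [Set.ncard_eq_two]
    refine ⟨(51, 1), (51, -1), by decide, ?_⟩
    ext ⟨a, b⟩
    simp only [Set.mem_ofPred_eq, Set.mem_insert_iff, Set.mem_singleton_iff, Prod.mk.injEq]
    push_cast
    constructor
    · rintro ⟨h1, h2⟩
      have h3 : a = 51 := by nlinarith [sq_nonneg (2 * b)]
      subst h3
      have h4 : (b - 1) * (b + 1) = 0 := by nlinarith
      rcases mul_eq_zero.1 h4 with h5 | h5
      · left; omega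
      · right; omega
    · rintro (⟨rfl, rfl⟩ | ⟨rfl, rfl⟩) <;> norm_num

lemma radii_lt {r : ℝ} (hr : r ∈ radii 8000) : r < √(10205 / 4) := by
  obtain ⟨h0, c, hc⟩ := hr
  rw [encard_eq] at hc
  have hc' : cnt c.1 c.2 (r ^ 2) = 8000 := by exact_mod_cast hc
  by_contra hcon
  push Not at hcon
  refine never ?_ hc'
  rwa [Real.sqrt_le_left h0.le] at hcon

lemma exists_radii {t : ℝ} (ht : t < √(10205 / 4)) : ∃ r ∈ radii 8000, t < r := by
  have ht2 : max t 0 ^ 2 < 10205 / 4 := by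
    rw [← Real.lt_sqrt (le_max_right _ _)]
    exact max_lt ht (Real.sqrt_pos.2 (by norm_num))
  obtain ⟨x, y, s, h1, h2⟩ := exist ht2
  have hs : 0 < s := lt_of_le_of_lt (sq_nonneg _) h1
  refine ⟨√s, ⟨Real.sqrt_pos.2 hs, (x, y), ?_⟩, ?_⟩
  · rw [encard_eq, Real.sq_sqrt hs.le, h2]
  · exact lt_of_le_of_lt (le_max_left t 0) (by rwa [Real.lt_sqrt (le_max_right _ _)])

/-- `f(50) = 8000`; the supremum of the radii of the `8000`-enclosing circles is `√(10205 / 4)`, and it
is not attained.  So `f(k)` is non-MC for some `k ≥ 1`, and the conjunction of (a) and (b) is false. -/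
theorem result :
    (f 50 = 8000 ∧ IsLUB (radii 8000) (√(10205 / 4)) ∧ √(10205 / 4) ∉ radii 8000) ∧
      (∃ k : ℕ, 1 ≤ k ∧ ¬ IsMC (f k)) ∧
      ¬ ((∀ k : ℕ, 1 ≤ k → IsMC (f k)) ∧ HasPosDensity {k : ℕ | 1 ≤ k ∧ IsStrong (f k)}) := by
  have h50 : ¬ IsMC (f 50) := by
    rw [f_eq]
    rintro ⟨r, hr, hr'⟩
    obtain ⟨r', h1, h2⟩ := exists_radii (radii_lt hr)
    exact absurd (hr' h1) (not_le.2 h2)
  refine ⟨⟨f_eq, ⟨fun r hr => (radii_lt hr).le, fun b hb => ?_⟩, fun h => lt_irrefl _ (radii_lt h)⟩,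
    ⟨50, by norm_num, h50⟩, fun h => h50 (h.1 50 (by norm_num))⟩
  by_contra hcon
  push Not at hcon
  obtain ⟨r, hr, hbr⟩ := exists_radii hcon
  exact absurd (hb hr) (not_le.2 hbr)

end Pool.Agent.Results.MP_2ab2dc_nt.NonMCFifty
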